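import Mathlib
import Pool.Agent.H255Z.Sum.D

open Finset in
/-- Exceptional set for the truncated inequality on projective `n`-space over the rationals, for
`q` hyperplanes `L i = 0` in general position. Points are primitive integer vectors `x`; the sum
is the truncated counting function outside `S`; the logarithm on the right is the height of `x`;
`Y` is a finite set of nonzero linear forms, whose hyperplanes are removed. -/
theorem Pool.Agent.Results.MP_9ec3f0_nt.AExceptionalHyperplanes.result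
    (n q : ℕ) (hq : n + 2 ≤ q) (L : Fin q → Fin (n + 1) → ℤ)
    (hL : ∀ B : Finset (Fin q), B.card = n + 1 → LinearIndependent ℤ fun i : B => L i) :
    ∃ Y : Finset (Fin (n + 1) → ℤ), (0 : Fin (n + 1) → ℤ) ∉ Y ∧
      ∀ (S : Finset ℕ) (lam C η : ℝ), 0 ≤ lam → 0 < η → ∃ D : ℝ, ∀ X : ℕ, 1 ≤ X →
      ({x : Fin (n + 1) → ℤ | univ.gcd x = 1 ∧ (∀ j, |x j| ≤ X) ∧ (∀ i, L i ⬝ᵥ x ≠ 0) ∧
        (∀ m ∈ Y, m ⬝ᵥ x ≠ 0) ∧
        ∑ p ∈ (∏ i, L i ⬝ᵥ x).natAbs.primeFactors \ S, Real.log p ≤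
          lam * Real.log ((univ.sup fun j => (x j).natAbs : ℕ) : ℝ) + C}.ncard : ℝ) ≤
        D * (X : ℝ) ^ (lam * (1 - ((2 * q - n - 2).choose q : ℝ) /
          ((2 * q - n - 2).choose ((2 * q - n - 2) / 2) : ℝ)) + η) := by
  have e : 2 * q - n - 2 = 2 * q - (n + 1) - 1 := by omega
  rw [e]
  exact Pool.Agent.H255Z.Sum.main2 L (by omega) hq hL
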